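import Pool.Agent.Helper53.CTR.Goals

/-!
# PROJECT CTR (MP_8b4d68_lc), packet EC: the numeric functions are those of the gadget
-/

set_option autoImplicit false

namespace Pool.Agent.Helper57.CTR

open Pool.Agent.Helper53.CTR
open Pool.Agent.Helper1.TE (app addm vN GoalCT)
open Pool.Agent.Helper65.LinSpace (dig tab ifz eq01 lt01 dig_lt)
open Finset

theorem ec_shC (hCT : GoalCT) {b W : ℕ} (h0 : 0 < Pb b) (hW : Pb b ^ (4 * b + 2) ≤ W)
    (al p X : ℕ) : shC b W al p X = shN (cC b W) (4 * b) (24 * b) (Rb b) al p X := by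
  unfold shC
  rw [hCT W (Pb b) (4 * b + 2) _ (fun i _ => Nat.mod_lt _ h0) hW]
  rfl

theorem ec_ushC (hCT : GoalCT) {b W : ℕ} (h0 : 0 < Pb b) (hW : Pb b ^ (4 * b + 2) ≤ W)
    (p X : ℕ) : ushC b W p X = ush6 (cC b W) (4 * b) (24 * b) (Rb b) p X := by
  unfold ushC
  rw [hCT W (Pb b) (4 * b + 2) _ (fun i _ => Nat.mod_lt _ h0) hW]
  rfl

theorem ec_addC (hCT : GoalCT) {b W : ℕ} (h0 : 0 < Pb b) (hW : Pb b ^ (4 * b + 2) ≤ W)
    (X y : ℕ) : addC b W X y = addm (4 * b) (24 * b) (Rb b) X y := by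
  unfold addC
  rw [hCT W (Pb b) (4 * b + 2) _ (fun i _ => ?_) hW]
  · unfold addm tab
    refine Finset.sum_congr rfl (fun i _ => ?_)
    have e : Pb b = 24 * b + Rb b := rfl
    rw [e]
    by_cases hi : i = 4 * b
    · simp [ifz, eq01, hi]
    · simp [ifz, eq01, hi]
  · by_cases hi : i = 4 * b
    · simp only [ifz, eq01, hi]
      simpa using Nat.mod_lt _ h0
    · simp only [ifz, eq01, hi]
      simpa using dig_lt h0 X i

/-- **EC** -/
theorem gEC : GoalEC := by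
  intro hCT b W hR hW
  have h0 : 0 < Pb b := lt_of_lt_of_le hR (Nat.le_add_left _ _)
  refine ⟨ec_shC hCT h0 hW, fun T v z => ?_⟩
  have hG : Gb b = (24 * b + Rb b) / Rb b + 1 := rfl
  have hP : Pb b = 24 * b + Rb b := rfl
  have hcase : T = 0 ∨ T = 1 ∨ (T ≠ 0 ∧ T ≠ 1 ∧ T - 1 ≠ 0) := by omega
  rcases hcase with rfl | rfl | ⟨t0, t1, t2⟩
  · simp only [app, apT, apX, apS, ifz]
    simp
  · simp only [app, apT, apX, apS, ifz, ec_addC hCT h0 hW, hG, wC]
    simp [gadC, gad6]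
  · simp only [app, apT, apX, apS, ifz, if_neg t0, if_neg t1, if_neg t2, ec_addC hCT h0 hW,
      ec_ushC hCT h0 hW, hG, hP, wC, lt01, gadC, gad6]
    split_ifs <;> simp_all

end Pool.Agent.Helper57.CTR
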