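import Pool.Agent.Helper53.CTR.Goals

/-!
# PROJECT CTR (MP_8b4d68_lc), packet LSUB: the descriptors of the phases are in linear space
-/

set_option autoImplicit false

namespace Pool.Agent.Helper57.CTR

open Pool.Agent.Helper53.CTR
open Pool.Agent.Helper1.TE (cif GoalLCF)
open Pool.Agent.Helper65.LinSpace (Ctx LS)

section proj

variable {α : Type} [Ctx α] {f : α → De}

theorem ls_k (hf : LS f) : LS (fun a => (f a).k) := by unfold De.k; fun_prop
theorem ls_v (hf : LS f) : LS (fun a => (f a).v) := by unfold De.v; fun_prop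
theorem ls_i (hf : LS f) : LS (fun a => (f a).i) := by unfold De.i; fun_prop
theorem ls_T (hf : LS f) : LS (fun a => (f a).T) := by unfold De.T; fun_prop

theorem ls_De {k e g v i T : α → ℕ} (h1 : LS k) (h2 : LS e) (h3 : LS g) (h4 : LS v) (h5 : LS i)
    (h6 : LS T) : LS (fun a => ((k a, e a, g a, v a, i a, T a) : De)) :=
  h1.prodMk (h2.prodMk (h3.prodMk (h4.prodMk (h5.prodMk h6))))

theorem ls_nod {v i T : α → ℕ} (h1 : LS v) (h2 : LS i) (h3 : LS T) :
    LS (fun a => nod (v a) (i a) (T a)) := by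
  unfold nod
  exact ls_De (LS.const 0) (LS.const 0) (LS.const 0) h1 h2 h3

theorem ls_phV (hC : GoalLCF) {v i T d : α → ℕ} (h1 : LS v) (h2 : LS i) (h3 : LS T) (h4 : LS d) :
    LS (fun a => phV (v a) (i a) (T a) (d a)) := by
  unfold phV
  exact hC _ _ _ h4 (LS.const _) (hC _ _ _ (h4.sub (LS.const 1)) (ls_nod h1 h2 h3)
    (hC _ _ _ (h4.sub (LS.const 2)) (LS.const _) (LS.const _)))

theorem ls_phB (hC : GoalLCF) {q p v i T d : α → ℕ} (hq : LS q) (hp : LS p) (h1 : LS v)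
    (h2 : LS i) (h3 : LS T) (h4 : LS d) :
    LS (fun a => phB (q a) (p a) (v a) (i a) (T a) (d a)) := by
  have c0 : LS (fun _ : α => (0 : ℕ)) := LS.const 0
  have c1 : LS (fun _ : α => (1 : ℕ)) := LS.const 1
  have c2 : LS (fun _ : α => (2 : ℕ)) := LS.const 2
  have c3 : LS (fun _ : α => (3 : ℕ)) := LS.const 3
  have c4 : LS (fun _ : α => (4 : ℕ)) := LS.const 4
  have c5 : LS (fun _ : α => (5 : ℕ)) := LS.const 5
  have c6 : LS (fun _ : α => (6 : ℕ)) := LS.const 6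
  have c7 : LS (fun _ : α => (7 : ℕ)) := LS.const 7
  have q2 : LS (fun a => 2 * q a) := c2.mul hq
  have qp : LS (fun a => 2 * q a + 1 + p a) := (q2.add c1).add hp
  have v2 : LS (fun a => 2 * v a) := c2.mul h1
  have q3 : LS (fun a => 2 * q a + 3) := q2.add c3
  unfold phB
  refine hC _ _ _ h4 (ls_De c5 c0 c0 c0 q3 c1) ?_
  refine hC _ _ _ (h4.sub c1) (ls_nod v2 qp c1) ?_
  refine hC _ _ _ (h4.sub c2) (ls_De c6 q2 qp h1 h2 h3) ?_
  refine hC _ _ _ (h4.sub c3) (ls_nod v2 qp c2) ?_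
  exact hC _ _ _ (h4.sub c4) (ls_De c7 c0 c0 c0 q3 c2) (LS.const _)

theorem ls_phK (hC : GoalLCF) {e v i T d : α → ℕ} (he : LS e) (h1 : LS v)
    (h2 : LS i) (h3 : LS T) (h4 : LS d) :
    LS (fun a => phK (e a) (v a) (i a) (T a) (d a)) := by
  have c0 : LS (fun _ : α => (0 : ℕ)) := LS.const 0
  have c1 : LS (fun _ : α => (1 : ℕ)) := LS.const 1
  have c2 : LS (fun _ : α => (2 : ℕ)) := LS.const 2
  have c3 : LS (fun _ : α => (3 : ℕ)) := LS.const 3
  have c4 : LS (fun _ : α => (4 : ℕ)) := LS.const 4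
  have c5 : LS (fun _ : α => (5 : ℕ)) := LS.const 5
  have c6 : LS (fun _ : α => (6 : ℕ)) := LS.const 6
  have c7 : LS (fun _ : α => (7 : ℕ)) := LS.const 7
  have e1 : LS (fun a => e a + 1) := he.add c1
  have e2 : LS (fun a => e a + 2) := he.add c2
  have v2 : LS (fun a => 2 * v a) := c2.mul h1
  have v3 : LS (fun a => 2 * v a + 1) := v2.add c1
  unfold phK
  refine hC _ _ _ h4 (ls_De c3 he c0 c0 e2 c1) ?_
  refine hC _ _ _ (h4.sub c1) (ls_nod v2 e1 c1) ?_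
  refine hC _ _ _ (h4.sub c2) (ls_De c3 he c0 c0 e2 c2) ?_
  refine hC _ _ _ (h4.sub c3) (ls_De c4 he e1 h1 e2 c1) ?_
  refine hC _ _ _ (h4.sub c4) (ls_nod v3 h2 h3) ?_
  refine hC _ _ _ (h4.sub c5) (ls_De c4 he e1 h1 e2 c2) ?_
  refine hC _ _ _ (h4.sub c6) (ls_De c3 he c0 c0 e2 c1) ?_
  exact hC _ _ _ (h4.sub c7) (ls_nod v2 e1 c2) (ls_De c3 he c0 c0 e2 c2)

end proj

theorem gLSUB : GoalLSUB := by
  intro hC
  refine ⟨?_, ?_⟩
  · have q : LS (fun x : (ℕ × De) × ℕ × ℕ => x.1.1) := by fun_prop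
    have y : LS (fun x : (ℕ × De) × ℕ × ℕ => x.1.2) := by fun_prop
    have n : LS (fun x : (ℕ × De) × ℕ × ℕ => x.2.1) := by fun_prop
    have d : LS (fun x : (ℕ × De) × ℕ × ℕ => x.2.2) := by fun_prop
    have c1 : LS (fun _ : (ℕ × De) × ℕ × ℕ => (1 : ℕ)) := LS.const 1
    have c2 : LS (fun _ : (ℕ × De) × ℕ × ℕ => (2 : ℕ)) := LS.const 2
    have r : LS (fun x : (ℕ × De) × ℕ × ℕ => x.2.1 % (x.1.1 + 2)) := n.mod (q.add c2)
    have s : LS (fun x : (ℕ × De) × ℕ × ℕ => x.2.1 / (x.1.1 + 2)) := n.div (q.add c2)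
    have k := ls_k y
    have v := ls_v y
    have i := ls_i y
    have T := ls_T y
    unfold sub
    refine hC _ _ _ k (hC _ _ _ ((q.add c1).sub r) (ls_phV hC v i T d) (hC _ _ _ r
      (ls_phB hC q (s.mod c2) v i T d) (ls_phK hC (c2.mul (q.sub r)) v i T d))) ?_
    exact hC _ _ _ d y (LS.const _)
  · have h : LS (fun x : ℕ × ℕ => x.1) := LS.fst
    have q : LS (fun x : ℕ × ℕ => x.2) := LS.snd
    unfold root
    exact ls_nod (LS.const 1) ((((LS.const 2).mul q).add (LS.const 1)).add (h.mod (LS.const 2)))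
      (LS.const 0)

end Pool.Agent.Helper57.CTR
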